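import Pool.Agent.Lib.MP_305fdd_al.Su.Surf
import Mathlib.GroupTheory.Transfer

/-!
# MP_305fdd_al, cocompact Fuchsian groups, block T: degrees of homomorphisms of surface groups

For a central extension `π : E → Q` and `ρ : SurfaceGroup g → Q`, `eul π ρ` is the product of the
commutators of lifts of the images of the generators, an element of the kernel of `π`.
`hopf`: for `f : SurfaceGroup g' → SurfaceGroup g` there is an integer `d`, the degree of `f`, such that
`eul π (ρ ∘ f) = (eul π ρ) ^ d` for all central extensions and all `ρ`.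
-/

set_option autoImplicit false

namespace Pool.Agent.ToT

open Pool.Agent.Su

/-- a central extension: `π` is surjective with central kernel -/
structure Cen {E Q : Type} [Group E] [Group Q] (π : E →* Q) : Prop where
  surj : Function.Surjective π
  cen : ∀ z, π z = 1 → ∀ x, z * x = x * z

/-- the product of the commutators -/
def prc {G : Type} [Group G] {g : ℕ} (x y : Fin g → G) : G :=
  (List.ofFn fun i : Fin g => x i * y i * (x i)⁻¹ * (y i)⁻¹).prod

theorem map_prc {G H : Type} [Group G] [Group H] (φ : G →* H) {g : ℕ} (x y : Fin g → G) :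
    φ (prc x y) = prc (fun i => φ (x i)) (fun i => φ (y i)) := by
  unfold prc
  rw [map_list_prod, List.map_ofFn]
  congr 2
  funext i
  simp

theorem surf_prc (g : ℕ) : prc (sa g) (sb g) = 1 := surf_rel g

theorem lift_prc {g : ℕ} {G : Type} [Group G] (f : Fin g ⊕ Fin g → G) :
    FreeGroup.lift f (surfRel g) = prc (fun i => f (Sum.inl i)) (fun i => f (Sum.inr i)) :=
  lift_surfRel f

section

variable {E Q : Type} [Group E] [Group Q] {π : E →* Q}

/-- two lifts of two elements have the same commutator -/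
theorem Cen.comm (h : Cen π) {x x' y y' : E} (hx : π x' = π x) (hy : π y' = π y) :
    x' * y' * x'⁻¹ * y'⁻¹ = x * y * x⁻¹ * y⁻¹ := by
  obtain ⟨z, hz, rfl⟩ : ∃ z, π z = 1 ∧ x' = z * x :=
    ⟨x' * x⁻¹, by rw [map_mul, map_inv, hx, mul_inv_cancel], by group⟩
  obtain ⟨w, hw, rfl⟩ : ∃ z, π z = 1 ∧ y' = z * y :=
    ⟨y' * y⁻¹, by rw [map_mul, map_inv, hy, mul_inv_cancel], by group⟩
  have e1 : ∀ u, z * x * u * (z * x)⁻¹ = x * u * x⁻¹ := fun u => by
    calc z * x * u * (z * x)⁻¹ = z * (x * u * x⁻¹) * z⁻¹ := by group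
      _ = x * u * x⁻¹ := by rw [h.cen z hz, mul_inv_cancel_right]
  calc z * x * (w * y) * (z * x)⁻¹ * (w * y)⁻¹ = x * (w * y) * x⁻¹ * (w * y)⁻¹ := by rw [e1]
    _ = (x * w) * (y * x⁻¹ * y⁻¹ * w⁻¹) := by group
    _ = (w * x) * (y * x⁻¹ * y⁻¹ * w⁻¹) := by rw [h.cen w hw x]
    _ = w * (x * y * x⁻¹ * y⁻¹) * w⁻¹ := by group
    _ = x * y * x⁻¹ * y⁻¹ := by rw [h.cen w hw, mul_inv_cancel_right]

theorem Cen.prc (h : Cen π) {g : ℕ} {x x' y y' : Fin g → E} (hx : ∀ i, π (x' i) = π (x i))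
    (hy : ∀ i, π (y' i) = π (y i)) : prc x' y' = prc x y := by
  unfold ToT.prc
  congr 2
  funext i
  exact h.comm (hx i) (hy i)

/-- the Euler class of `ρ` evaluated at the fundamental class -/
noncomputable def eul (h : Cen π) {g : ℕ} (ρ : SurfaceGroup g →* Q) : E :=
  ToT.prc (fun i => Function.surjInv h.surj (ρ (sa g i)))
    (fun i => Function.surjInv h.surj (ρ (sb g i)))

theorem eul_eq (h : Cen π) {g : ℕ} (ρ : SurfaceGroup g →* Q) {x y : Fin g → E}
    (hx : ∀ i, π (x i) = ρ (sa g i)) (hy : ∀ i, π (y i) = ρ (sb g i)) : ToT.prc x y = eul h ρ :=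
  h.prc (fun i => by rw [hx, Function.surjInv_eq h.surj]) fun i => by rw [hy, Function.surjInv_eq h.surj]

theorem map_eul (h : Cen π) {g : ℕ} (ρ : SurfaceGroup g →* Q) : π (eul h ρ) = 1 := by
  unfold eul
  rw [map_prc]
  have h1 := map_prc ρ (sa g) (sb g)
  rw [surf_prc, map_one] at h1
  rw [h1]
  congr 1 <;> · funext i; rw [Function.surjInv_eq h.surj]

theorem eul_cen (h : Cen π) {g : ℕ} (ρ : SurfaceGroup g →* Q) (x : E) :
    eul h ρ * x = x * eul h ρ := h.cen _ (map_eul h ρ) x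

/-- the Euler class in terms of a homomorphism of the free group -/
theorem eul_lift (h : Cen π) {g : ℕ} (ρ : SurfaceGroup g →* Q)
    (σ : FreeGroup (Fin g ⊕ Fin g) →* E) (hσ : π.comp σ = ρ.comp (surfMk g)) :
    σ (surfRel g) = eul h ρ := by
  have h1 : σ = FreeGroup.lift fun c => σ (FreeGroup.of c) := by
    ext c
    simp
  rw [h1, lift_prc]
  refine eul_eq h ρ (fun i => ?_) fun i => ?_
  · exact (DFunLike.congr_fun hσ (FreeGroup.of (Sum.inl i))).trans (by
      rw [MonoidHom.comp_apply, surfMk_eq]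
      simp)
  · exact (DFunLike.congr_fun hσ (FreeGroup.of (Sum.inr i))).trans (by
      rw [MonoidHom.comp_apply, surfMk_eq]
      simp)

/-- the Euler class of a homomorphism composed with an inner automorphism -/
theorem eul_conj (h : Cen π) {g : ℕ} (ρ : SurfaceGroup g →* Q) (s : SurfaceGroup g) :
    eul h (ρ.comp (MulAut.conj s).toMonoidHom) = eul h ρ := by
  obtain ⟨t, ht⟩ := h.surj (ρ s)
  have h1 : (MulAut.conj t) (eul h ρ) = eul h ρ := by
    rw [MulAut.conj_apply, ← eul_cen, mul_inv_cancel_right]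
  rw [← h1]
  unfold eul
  have h2 := map_prc (MulAut.conj t).toMonoidHom
    (fun i => Function.surjInv h.surj (ρ (sa g i))) (fun i => Function.surjInv h.surj (ρ (sb g i)))
  refine Eq.trans ?_ h2.symm
  refine h.prc (fun i => ?_) fun i => ?_
  · rw [Function.surjInv_eq h.surj]
    simp [MulAut.conj_apply, ht, Function.surjInv_eq h.surj]
  · rw [Function.surjInv_eq h.surj]
    simp [MulAut.conj_apply, ht, Function.surjInv_eq h.surj]

end

/-- HOPF: the elements of the kernel of the free group -/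
theorem hopf_ker {g : ℕ} (x : FreeGroup (Fin g ⊕ Fin g))
    (hx : x ∈ Subgroup.normalClosure {surfRel g}) :
    ∃ d : ℤ, ∀ (E Q : Type) [Group E] [Group Q] (π : E →* Q) (h : Cen π)
      (ρ : SurfaceGroup g →* Q) (σ : FreeGroup (Fin g ⊕ Fin g) →* E),
      π.comp σ = ρ.comp (surfMk g) → σ x = eul h ρ ^ d := by
  unfold Subgroup.normalClosure at hx
  induction hx using Subgroup.closure_induction with
  | mem x hx =>
    refine ⟨1, ?_⟩
    intro E Q _ _ π h ρ σ hσ
    rw [Group.mem_conjugatesOfSet_iff] at hx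
    obtain ⟨r, hr, hc⟩ := hx
    rw [Set.mem_singleton_iff] at hr
    subst hr
    obtain ⟨c, rfl⟩ := isConj_iff.1 hc
    rw [map_mul, map_mul, map_inv, eul_lift h ρ σ hσ, ← eul_cen, mul_inv_cancel_right, zpow_one]
  | one => exact ⟨0, fun E Q _ _ π h ρ σ hσ => by rw [map_one, zpow_zero]⟩
  | mul x y hx hy ihx ihy =>
    obtain ⟨d, hd⟩ := ihx
    obtain ⟨d', hd'⟩ := ihy
    refine ⟨d + d', fun E Q _ _ π h ρ σ hσ => ?_⟩
    rw [map_mul, hd E Q π h ρ σ hσ, hd' E Q π h ρ σ hσ, zpow_add]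
  | inv x hx ih =>
    obtain ⟨d, hd⟩ := ih
    refine ⟨-d, fun E Q _ _ π h ρ σ hσ => ?_⟩
    rw [map_inv, hd E Q π h ρ σ hσ, zpow_neg]

/-- `d` is the degree of `f` -/
def IsDeg {g g' : ℕ} (f : SurfaceGroup g' →* SurfaceGroup g) (d : ℤ) : Prop :=
  ∀ (E Q : Type) [Group E] [Group Q] (π : E →* Q) (h : Cen π) (ρ : SurfaceGroup g →* Q),
    eul h (ρ.comp f) = eul h ρ ^ d

theorem ker_surfMk (g : ℕ) : (surfMk g).ker = Subgroup.normalClosure {surfRel g} := by
  ext x
  exact PresentedGroup.mk_eq_one_iff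

/-- HOPF's formula -/
theorem exists_deg {g g' : ℕ} (f : SurfaceGroup g' →* SurfaceGroup g) : ∃ d, IsDeg f d := by
  choose w hw using fun c : Fin g' ⊕ Fin g' => surfMk_surjective g (f (surfMk g' (FreeGroup.of c)))
  let F : FreeGroup (Fin g' ⊕ Fin g') →* FreeGroup (Fin g ⊕ Fin g) := FreeGroup.lift w
  have hF : (surfMk g).comp F = f.comp (surfMk g') := by
    ext c
    simp only [F, MonoidHom.comp_apply, FreeGroup.lift_apply_of]
    exact hw c
  have h1 : F (surfRel g') ∈ Subgroup.normalClosure {surfRel g} := by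
    rw [← ker_surfMk, MonoidHom.mem_ker, ← MonoidHom.comp_apply, hF, MonoidHom.comp_apply]
    have h2 : surfMk g' (surfRel g') = 1 := by
      rw [← MonoidHom.mem_ker, ker_surfMk]
      exact Subgroup.subset_normalClosure rfl
    rw [h2, map_one]
  obtain ⟨d, hd⟩ := hopf_ker _ h1
  refine ⟨d, ?_⟩
  intro E Q _ _ π h ρ
  choose s hs using fun c : Fin g ⊕ Fin g => h.surj (ρ (surfMk g (FreeGroup.of c)))
  have hσ : π.comp (FreeGroup.lift s) = ρ.comp (surfMk g) := by
    ext c
    simp only [MonoidHom.comp_apply, FreeGroup.lift_apply_of]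
    exact hs c
  rw [← hd E Q π h ρ _ hσ]
  symm
  refine eul_lift h (ρ.comp f) ((FreeGroup.lift s).comp F) ?_
  rw [← MonoidHom.comp_assoc, hσ, MonoidHom.comp_assoc, hF, ← MonoidHom.comp_assoc]

end Pool.Agent.ToT
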