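import Pool.Agent.Lib.MP_305fdd_al.To.T.Deg
import Mathlib.Algebra.Group.MinimalAxioms

/-!
# MP_305fdd_al, cocompact Fuchsian groups, block T: the degree of an inclusion of finite index

`exists_inf`: a central extension for which the Euler class of the surface group has infinite order.
`deg_ne_zero`: an injective homomorphism of finite index has nonzero degree.
`deg_compat`: an automorphism and its restriction to a subgroup of finite index have the same degree.
-/

set_option autoImplicit false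

namespace Pool.Agent.ToT

open Pool.Agent.Su

/-- the integral Heisenberg group -/
@[ext] structure Hz where
  a : ℤ
  b : ℤ
  c : ℤ

namespace Hz

instance : Mul Hz := ⟨fun x y => ⟨x.a + y.a, x.b + y.b, x.c + y.c + x.a * y.b⟩⟩
instance : One Hz := ⟨⟨0, 0, 0⟩⟩
instance : Inv Hz := ⟨fun x => ⟨-x.a, -x.b, -x.c + x.a * x.b⟩⟩

@[simp] theorem mul_a (x y : Hz) : (x * y).a = x.a + y.a := rfl
@[simp] theorem mul_b (x y : Hz) : (x * y).b = x.b + y.b := rfl
@[simp] theorem mul_c (x y : Hz) : (x * y).c = x.c + y.c + x.a * y.b := rfl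
@[simp] theorem one_a : (1 : Hz).a = 0 := rfl
@[simp] theorem one_b : (1 : Hz).b = 0 := rfl
@[simp] theorem one_c : (1 : Hz).c = 0 := rfl
@[simp] theorem inv_a (x : Hz) : (x⁻¹).a = -x.a := rfl
@[simp] theorem inv_b (x : Hz) : (x⁻¹).b = -x.b := rfl
@[simp] theorem inv_c (x : Hz) : (x⁻¹).c = -x.c + x.a * x.b := rfl

instance : Group Hz :=
  Group.ofLeftAxioms (fun x y z => by ext <;> simp <;> ring) (fun x => by ext <;> simp)
    (fun x => by ext <;> simp)

/-- the abelianisation -/
def pr : Hz →* Multiplicative (ℤ × ℤ) where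
  toFun x := Multiplicative.ofAdd (x.a, x.b)
  map_one' := rfl
  map_mul' _ _ := rfl

theorem cen : Cen pr where
  surj := fun y => ⟨⟨y.toAdd.1, y.toAdd.2, 0⟩, rfl⟩
  cen := by
    intro z hz x
    have h1 : (z.a, z.b) = ((0 : ℤ), (0 : ℤ)) := hz
    have h2 : z.a = 0 := congrArg Prod.fst h1
    have h3 : z.b = 0 := congrArg Prod.snd h1
    ext
    · simp [h2]
    · simp [h3]
    · simp [h2, h3]
      ring

theorem pow_c (n : ℕ) : ((⟨0, 0, 1⟩ : Hz) ^ n) = ⟨0, 0, n⟩ := by
  induction n with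
  | zero => rfl
  | succ n ih =>
    rw [pow_succ, ih]
    ext <;> simp

theorem zpow_c (n : ℤ) (h : (⟨0, 0, 1⟩ : Hz) ^ n = 1) : n = 0 := by
  obtain ⟨k, rfl | rfl⟩ := n.eq_nat_or_neg
  · rw [zpow_natCast, pow_c] at h
    exact congrArg Hz.c h
  · rw [zpow_neg, inv_eq_one, zpow_natCast, pow_c] at h
    have := congrArg Hz.c h
    simp at this
    simp [this]

end Hz

/-- there is a central extension such that the Euler class has infinite order -/
theorem exists_inf {g : ℕ} (hg : 1 ≤ g) :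
    ∃ (E Q : Type) (_ : Group E) (_ : Group Q) (π : E →* Q) (h : Cen π) (ρ : SurfaceGroup g →* Q),
      ∀ d : ℤ, eul h ρ ^ d = 1 → d = 0 := by
  obtain ⟨n, rfl⟩ : ∃ n, g = n + 1 := ⟨g - 1, by omega⟩
  let x : Fin (n + 1) → Hz := Fin.cons ⟨1, 0, 0⟩ fun _ => 1
  let y : Fin (n + 1) → Hz := Fin.cons ⟨0, 1, 0⟩ fun _ => 1
  have h0 : prc x y = ⟨0, 0, 1⟩ := by
    unfold prc
    rw [List.ofFn_succ, List.prod_cons]
    have h1 : (List.ofFn fun i : Fin n => x i.succ * y i.succ * (x i.succ)⁻¹ * (y i.succ)⁻¹) =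
        List.ofFn fun _ : Fin n => (1 : Hz) := by
      congr 1
    rw [h1, List.ofFn_const, List.prod_replicate, one_pow, mul_one]
    rfl
  have h1 : prc (fun i => Hz.pr (x i)) (fun i => Hz.pr (y i)) = 1 := by
    rw [← map_prc, h0]
    rfl
  let ρ : SurfaceGroup (n + 1) →* Multiplicative (ℤ × ℤ) := surfLift _ _ h1
  refine ⟨Hz, Multiplicative (ℤ × ℤ), inferInstance, inferInstance, Hz.pr, Hz.cen, ρ, ?_⟩
  intro d hd
  have h2 : prc x y = eul Hz.cen ρ := eul_eq Hz.cen ρ (fun i => (surfLift_sa _ _ h1 i).symm)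
    (fun i => (surfLift_sb _ _ h1 i).symm)
  rw [← h2, h0] at hd
  exact Hz.zpow_c d hd

open scoped IsMulCommutative in
/-- an injective homomorphism of finite index has nonzero degree -/
theorem deg_ne_zero {g g' : ℕ} (hg : 1 ≤ g) (f : SurfaceGroup g' →* SurfaceGroup g)
    (hinj : Function.Injective f) (hfi : f.range.FiniteIndex) {d : ℤ} (hd : IsDeg f d) : d ≠ 0 := by
  rintro rfl
  obtain ⟨E, Q, _, _, π, h, ρ, hρ⟩ := exists_inf hg
  -- a lift of the restriction
  have h1 : eul h (ρ.comp f) = 1 := by rw [hd E Q π h ρ, zpow_zero]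
  let κ : SurfaceGroup g' →* E := surfLift _ _ h1
  have hκ : π.comp κ = ρ.comp f := by
    refine surf_ext (fun i => ?_) fun i => ?_
    · have e1 : κ (sa g' i) = Function.surjInv h.surj ((ρ.comp f) (sa g' i)) :=
        surfLift_sa _ _ h1 i
      rw [MonoidHom.comp_apply, e1, Function.surjInv_eq h.surj]
    · have e1 : κ (sb g' i) = Function.surjInv h.surj ((ρ.comp f) (sb g' i)) :=
        surfLift_sb _ _ h1 i
      rw [MonoidHom.comp_apply, e1, Function.surjInv_eq h.surj]
  have hκ' : ∀ b, π (κ b) = ρ (f b) := fun b => DFunLike.congr_fun hκ b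
  -- the pull back
  let G : Subgroup (E × SurfaceGroup g) :=
    (π.comp (MonoidHom.fst E (SurfaceGroup g))).eqLocus (ρ.comp (MonoidHom.snd E (SurfaceGroup g)))
  have hG : ∀ x : G, π x.1.1 = ρ x.1.2 := fun x => x.2
  let sn : G →* SurfaceGroup g := (MonoidHom.snd E (SurfaceGroup g)).comp G.subtype
  let H : Subgroup G := f.range.comap sn
  have hH : H.FiniteIndex := by
    refine ⟨fun h0 => hfi.index_ne_zero ?_⟩
    have hs : Function.Surjective sn := by
      intro s
      obtain ⟨e, he⟩ := h.surj (ρ s)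
      exact ⟨⟨(e, s), he⟩, rfl⟩
    rwa [Subgroup.index_comap_of_surjective _ hs] at h0
  choose b hb using fun x : H => (x.2 : sn x.1 ∈ f.range)
  have hb' : ∀ x y : H, b (x * y) = b x * b y := by
    intro x y
    apply hinj
    rw [map_mul, hb, hb, hb]
    rfl
  have hcen : ∀ z, π z = 1 → z ∈ Subgroup.center E := fun z hz =>
    Subgroup.mem_center_iff.2 fun x => (h.cen z hz x).symm
  have hχ : ∀ x : H, π (x.1.1.1 * (κ (b x))⁻¹) = 1 := by
    intro x
    rw [map_mul, map_inv, hκ', hb, hG]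
    exact mul_inv_cancel _
  let χ : H →* Subgroup.center E :=
    { toFun := fun x => ⟨x.1.1.1 * (κ (b x))⁻¹, hcen _ (hχ x)⟩
      map_one' := by
        apply Subtype.ext
        have h2 : b 1 = 1 := by
          have := hb' 1 1
          rwa [mul_one, left_eq_mul] at this
        simp [h2]
      map_mul' := by
        intro x y
        apply Subtype.ext
        show (x.1.1.1 * y.1.1.1) * (κ (b (x * y)))⁻¹ =
          (x.1.1.1 * (κ (b x))⁻¹) * (y.1.1.1 * (κ (b y))⁻¹)
        rw [← h.cen _ (hχ y), hb', map_mul]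
        have h3 := h.cen _ (hχ y) (x.1.1.1)
        calc (x.1.1.1 * y.1.1.1) * (κ (b x) * κ (b y))⁻¹ =
            x.1.1.1 * (y.1.1.1 * (κ (b y))⁻¹) * (κ (b x))⁻¹ := by group
          _ = y.1.1.1 * (κ (b y))⁻¹ * (x.1.1.1 * (κ (b x))⁻¹) := by rw [← h3]; group }
  -- the transfer
  let xe : Fin g → G := fun i => ⟨(Function.surjInv h.surj (ρ (sa g i)), sa g i),
    Function.surjInv_eq h.surj _⟩
  let ye : Fin g → G := fun i => ⟨(Function.surjInv h.surj (ρ (sb g i)), sb g i),
    Function.surjInv_eq h.surj _⟩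
  let z0 : G := ⟨(eul h ρ, 1), by
    show π (eul h ρ) = ρ 1
    rw [map_eul, map_one]⟩
  have hz0 : prc xe ye = z0 := by
    apply Subtype.ext
    have h2 := map_prc G.subtype xe ye
    refine h2.trans (Prod.ext ?_ ?_)
    · exact map_prc (MonoidHom.fst E (SurfaceGroup g)) _ _
    · exact (map_prc (MonoidHom.snd E (SurfaceGroup g)) _ _).trans (surf_prc g)
  have hc : ∀ x : G, z0 * x = x * z0 := by
    intro x
    apply Subtype.ext
    refine Prod.ext ?_ ?_
    · exact eul_cen h ρ _
    · show 1 * x.1.2 = x.1.2 * 1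
      rw [one_mul, mul_one]
  have key : ∀ (k : ℕ) (g₀ : G), g₀⁻¹ * z0 ^ k * g₀ ∈ H → g₀⁻¹ * z0 ^ k * g₀ = z0 ^ k := by
    intro k g₀ _
    have h2 : Commute z0 g₀ := hc g₀
    rw [mul_assoc, (h2.pow_left k).eq, inv_mul_cancel_left]
  have h4 := MonoidHom.transfer_eq_pow χ z0 key
  have h5 : MonoidHom.transfer χ z0 = 1 := by
    rw [← hz0, map_prc]
    unfold prc
    have h6 : (fun i : Fin g => MonoidHom.transfer χ (xe i) * MonoidHom.transfer χ (ye i) *
        (MonoidHom.transfer χ (xe i))⁻¹ * (MonoidHom.transfer χ (ye i))⁻¹) = fun _ => 1 := by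
      funext i
      rw [mul_comm (MonoidHom.transfer χ (xe i)), mul_inv_cancel_right, mul_inv_cancel]
    rw [h6, List.ofFn_const, List.prod_replicate, one_pow]
  rw [h5] at h4
  have h7 := congrArg Subtype.val h4
  have h8 : ∀ x : H, x.1.1.2 = 1 → (χ x).1 = x.1.1.1 := by
    intro x hx
    have h9 : b x = 1 := by
      apply hinj
      rw [hb, map_one]
      exact hx
    show x.1.1.1 * (κ (b x))⁻¹ = _
    rw [h9, map_one, inv_one, mul_one]
  rw [h8 _ (by
    show ((z0 ^ H.index : G).1).2 = 1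
    have : ((z0 ^ H.index : G).1).2 = (1 : SurfaceGroup g) ^ H.index := by
      have h9 := map_pow ((MonoidHom.snd E (SurfaceGroup g)).comp G.subtype) z0 H.index
      exact h9
    rw [this, one_pow])] at h7
  have h10 : ((z0 ^ H.index : G).1).1 = eul h ρ ^ H.index :=
    map_pow ((MonoidHom.fst E (SurfaceGroup g)).comp G.subtype) z0 H.index
  have h11 := hρ H.index (by
    rw [zpow_natCast, ← h10]
    exact h7.symm)
  exact hH.index_ne_zero (by exact_mod_cast h11)

/-- the degree is determined -/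
theorem deg_unique {g g' : ℕ} (hg : 1 ≤ g) {f : SurfaceGroup g' →* SurfaceGroup g} {d d' : ℤ}
    (h1 : IsDeg f d) (h2 : IsDeg f d') : d = d' := by
  obtain ⟨E, Q, _, _, π, h, ρ, hρ⟩ := exists_inf hg
  have h3 : eul h ρ ^ (d - d') = 1 := by
    rw [zpow_sub, ← h1 E Q π h ρ, ← h2 E Q π h ρ, mul_inv_cancel]
  have := hρ _ h3
  omega

theorem IsDeg.comp {g g' g'' : ℕ} {f : SurfaceGroup g' →* SurfaceGroup g}
    {f' : SurfaceGroup g'' →* SurfaceGroup g'} {d d' : ℤ} (h : IsDeg f d) (h' : IsDeg f' d') :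
    IsDeg (f.comp f') (d * d') := by
  intro E Q _ _ π hc ρ
  rw [← MonoidHom.comp_assoc, h' E Q π hc (ρ.comp f), h E Q π hc ρ, zpow_mul]

theorem isDeg_conj {g : ℕ} (s : SurfaceGroup g) : IsDeg (MulAut.conj s).toMonoidHom 1 := by
  intro E Q _ _ π hc ρ
  rw [eul_conj, zpow_one]

/-- an endomorphism and its restriction to a subgroup of finite index have the same degree -/
theorem deg_compat {g g' : ℕ} (hg : 1 ≤ g) {i : SurfaceGroup g' →* SurfaceGroup g}
    (hinj : Function.Injective i) (hfi : i.range.FiniteIndex) {α : SurfaceGroup g →* SurfaceGroup g}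
    {β : SurfaceGroup g' →* SurfaceGroup g'} (h : i.comp β = α.comp i) :
    IsDeg α 1 ↔ IsDeg β 1 := by
  obtain ⟨d, hd⟩ := exists_deg i
  obtain ⟨a, ha⟩ := exists_deg α
  obtain ⟨b, hb⟩ := exists_deg β
  have h0 := deg_ne_zero hg i hinj hfi hd
  have key : ∀ a b : ℤ, IsDeg α a → IsDeg β b → a = b := by
    intro a b ha hb
    have h1 : IsDeg (i.comp β) (d * b) := hd.comp hb
    have h2 : IsDeg (i.comp β) (a * d) := by rw [h]; exact ha.comp hd
    have h3 := deg_unique hg h1 h2
    rw [mul_comm] at h3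
    exact (mul_right_cancel₀ h0 h3).symm
  constructor
  · intro h1
    have := key 1 b h1 hb
    rw [this]
    exact hb
  · intro h1
    have := key a 1 ha h1
    rw [← this]
    exact ha

end Pool.Agent.ToT
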