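import Pool.Agent.Lib.MP_305fdd_al.To.T.Tfr
import Pool.Agent.Lib.MP_305fdd_al.To.T.Deg2
import Pool.Agent.Lib.MP_305fdd_al.Su.Asm.Final
import Pool.Agent.Lib.MP_305fdd_al.Su.Top.Com

/-!
# MP_305fdd_al, cocompact Fuchsian groups, block T: orientation

`ori`: let `Λ` have the same finite quotients as the cocompact lattice `Δ` of `PSL(2, ℝ)`.  The
elements of `Λ` act on the surface subgroup by automorphisms of degree one.
-/

set_option autoImplicit false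

namespace Pool.Agent.ToT

open Pool.Agent.Su Pool.Agent.Lib.MP_305fdd_al Pool.Agent.MP_305fdd_al

section

variable {Λ : Type} [Group Λ]

/-- conjugation by `l` on a subgroup -/
def cn (N : Subgroup Λ) (l : Λ) (h : ∀ y ∈ N, l * y * l⁻¹ ∈ N) : N →* N where
  toFun z := ⟨l * z * l⁻¹, h z z.2⟩
  map_one' := by
    apply Subtype.ext
    simp
  map_mul' a b := by
    apply Subtype.ext
    simp

/-- conjugation by `l`, as an endomorphism of the surface group -/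
def pl {g : ℕ} {N : Subgroup Λ} (e : SurfaceGroup g ≃* N) (l : Λ) (h : ∀ y ∈ N, l * y * l⁻¹ ∈ N) :
    SurfaceGroup g →* SurfaceGroup g :=
  e.symm.toMonoidHom.comp ((cn N l h).comp e.toMonoidHom)

theorem pl_spec {g : ℕ} {N : Subgroup Λ} (e : SurfaceGroup g ≃* N) (l : Λ)
    (h : ∀ y ∈ N, l * y * l⁻¹ ∈ N) (x : SurfaceGroup g) : (e (pl e l h x) : Λ) = l * e x * l⁻¹ := by
  show (e (e.symm (cn N l h (e x))) : Λ) = _
  rw [MulEquiv.apply_symm_apply]
  rfl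

/-- the inclusion of a subgroup of finite index -/
def ic {g g' : ℕ} {N B : Subgroup Λ} (hBN : B ≤ N) (e : SurfaceGroup g ≃* N)
    (eB : SurfaceGroup g' ≃* B) : SurfaceGroup g' →* SurfaceGroup g :=
  e.symm.toMonoidHom.comp ((Subgroup.inclusion hBN).comp eB.toMonoidHom)

theorem ic_spec {g g' : ℕ} {N B : Subgroup Λ} (hBN : B ≤ N) (e : SurfaceGroup g ≃* N)
    (eB : SurfaceGroup g' ≃* B) (x : SurfaceGroup g') : (e (ic hBN e eB x) : Λ) = eB x := by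
  show (e (e.symm (Subgroup.inclusion hBN (eB x))) : Λ) = _
  rw [MulEquiv.apply_symm_apply]
  rfl

theorem ic_inj {g g' : ℕ} {N B : Subgroup Λ} (hBN : B ≤ N) (e : SurfaceGroup g ≃* N)
    (eB : SurfaceGroup g' ≃* B) : Function.Injective (ic hBN e eB) := by
  intro x y h
  apply eB.injective
  apply Subtype.ext
  rw [← ic_spec hBN e eB, ← ic_spec hBN e eB, h]

theorem ic_fin {g g' : ℕ} {N B : Subgroup Λ} (hBN : B ≤ N) (hB : B.FiniteIndex)
    (e : SurfaceGroup g ≃* N) (eB : SurfaceGroup g' ≃* B) : (ic hBN e eB).range.FiniteIndex := by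
  have h1 : (ic hBN e eB).range = (B.subgroupOf N).comap e.toMonoidHom := by
    ext s
    constructor
    · rintro ⟨b, rfl⟩
      show (e (ic hBN e eB b) : Λ) ∈ B
      rw [ic_spec]
      exact (eB b).2
    · intro hs
      have hs' : (e s : Λ) ∈ B := hs
      refine ⟨eB.symm ⟨e s, hs'⟩, ?_⟩
      apply e.injective
      apply Subtype.ext
      rw [ic_spec, MulEquiv.apply_symm_apply]
  rw [h1]
  refine ⟨?_⟩
  rw [Subgroup.index_comap_of_surjective _ e.surjective]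
  exact Subgroup.FiniteIndex.index_ne_zero

/-- the degree of a conjugation is one if it is one on the surface group `M` -/
theorem deg_of_sub {N M B : Subgroup Λ} (l : Λ) (hlM : l ∈ M) (hBN : B ≤ N) (hBM : B ≤ M)
    (hBf : B.FiniteIndex) (hlN : ∀ y ∈ N, l * y * l⁻¹ ∈ N) (hlB : ∀ y ∈ B, l * y * l⁻¹ ∈ B)
    {g g' g'' : ℕ} (hg : 1 ≤ g) (hg'' : 1 ≤ g'') (e : SurfaceGroup g ≃* N)
    (eB : SurfaceGroup g' ≃* B) (eM : SurfaceGroup g'' ≃* M) : IsDeg (pl e l hlN) 1 := by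
  have hlM' : ∀ y ∈ M, l * y * l⁻¹ ∈ M := fun y hy =>
    M.mul_mem (M.mul_mem hlM hy) (M.inv_mem hlM)
  have h1 : (ic hBN e eB).comp (pl eB l hlB) = (pl e l hlN).comp (ic hBN e eB) := by
    ext1 x
    apply e.injective
    apply Subtype.ext
    rw [MonoidHom.comp_apply, MonoidHom.comp_apply, ic_spec, pl_spec, pl_spec, ic_spec]
  have h2 : (ic hBM eM eB).comp (pl eB l hlB) = (pl eM l hlM').comp (ic hBM eM eB) := by
    ext1 x
    apply eM.injective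
    apply Subtype.ext
    rw [MonoidHom.comp_apply, MonoidHom.comp_apply, ic_spec, pl_spec, pl_spec, ic_spec]
  rw [deg_compat hg (ic_inj hBN e eB) (ic_fin hBN hBf e eB) h1,
    ← deg_compat hg'' (ic_inj hBM eM eB) (ic_fin hBM hBf eM eB) h2]
  have h3 : pl eM l hlM' = (MulAut.conj (eM.symm ⟨l, hlM⟩)).toMonoidHom := by
    ext1 x
    apply eM.injective
    apply Subtype.ext
    rw [pl_spec]
    show _ = ((eM (eM.symm ⟨l, hlM⟩ * x * (eM.symm ⟨l, hlM⟩)⁻¹) : M) : Λ)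
    rw [map_mul, map_mul, map_inv, MulEquiv.apply_symm_apply]
    rfl
  rw [h3]
  exact isDeg_conj _

end

/-- subgroups of finite index which are surface groups correspond -/
theorem tr_surf {Δ Λ : Type} [Group Δ] [Group Λ] (Φ : NatBij Δ Λ) (hfg : Group.FG Λ)
    (hrf : Group.ResiduallyFinite Λ) {R : Type} [Group R] [Finite R] (π : Δ →* R)
    (hπ : Function.Surjective π) (H : Subgroup Δ) (hH : H.FiniteIndex) (hk : π.ker ≤ H) {g : ℕ}
    (e : H ≃* SurfaceGroup g) : Nonempty (SurfaceGroup g ≃* ((H.map π).comap (Φ.toFun R π))) := by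
  let T : Subgroup R := H.map π
  have hT : H = T.comap π := by
    show H = (H.map π).comap π
    rw [Subgroup.comap_map_eq, sup_eq_left.2 hk]
  let π' : Λ →* R := Φ.toFun _ π
  have hπ' : Function.Surjective π' := by
    rw [← MonoidHom.range_eq_top, Φ.range_eq, MonoidHom.range_eq_top]
    exact hπ
  obtain ⟨Ψ, -⟩ := Pool.Agent.F8.natBij_comap (π := π) (π' := π') Φ rfl T
  have hi : (T.comap π').index = H.index := by
    rw [Subgroup.index_comap_of_surjective _ hπ']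
    conv_rhs => rw [hT]
    rw [Subgroup.index_comap_of_surjective _ hπ]
  have hfi : (T.comap π').FiniteIndex := ⟨by rw [hi]; exact hH.index_ne_zero⟩
  have hfg' : Group.FG (T.comap π') := Subgroup.fg_of_index_ne_zero _
  have hrf' : Group.ResiduallyFinite (T.comap π') := inferInstance
  have e1 : T.comap π ≃* SurfaceGroup g := (MulEquiv.subgroupCongr hT.symm).trans e
  obtain ⟨f⟩ := SuAsm.surface_rigid g (T.comap π') ⟨hfg', hrf',
    SuTop.same_of_natBij (Pool.Agent.F8.natBij_equiv e1.symm Ψ).symm⟩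
  exact ⟨f.symm⟩

/-- **ORIENTATION** -/
theorem ori {Δ Λ : Type} [Group Δ] [Group Λ] (L : ToST.Lat Δ)
    (hinf : ∀ H : Subgroup Δ, H.FiniteIndex → ∀ x : Δ, ∃ y ∈ H, ∀ n : ℕ, 0 < n → (x * y) ^ n ≠ 1)
    (Φ : NatBij Δ Λ) (hfg : Group.FG Λ) (hrf : Group.ResiduallyFinite Λ)
    (N₀ : Subgroup Δ) [hNn : N₀.Normal] [hNf : N₀.FiniteIndex] (hN₀ : TF N₀)
    (π' : Λ →* Δ ⧸ N₀) (hπ' : Φ.toFun (Δ ⧸ N₀) (QuotientGroup.mk' N₀) = π') {g : ℕ} (hg : 1 ≤ g)
    (e : SurfaceGroup g ≃* π'.ker) (l : Λ) :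
    IsDeg ((e.trans (MulAut.conjNormal l)).trans e.symm).toMonoidHom 1 := by
  classical
  have hfgΔ : Group.FG Δ := ToVT.fg L
  let π : Δ →* Δ ⧸ N₀ := QuotientGroup.mk' N₀
  -- an element of `Δ` over `l`
  obtain ⟨x₀, hx₀⟩ := QuotientGroup.mk'_surjective N₀ (π' l)
  obtain ⟨y₀, hy₀, hx⟩ := hinf N₀ hNf x₀
  obtain ⟨x, hxe⟩ : ∃ x, x = x₀ * y₀ := ⟨_, rfl⟩
  rw [← hxe] at hx
  have hxl : π x = π' l := by
    rw [← hx₀, hxe, map_mul]
    have : π y₀ = 1 := (QuotientGroup.eq_one_iff y₀).2 hy₀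
    rw [this, mul_one]
  obtain ⟨N₁, D, hN₁, hN₁f, hN₁D, hxD, hxN₁, hDtf⟩ := exists_over L N₀ hN₀ x hx
  -- the finite quotient
  let C : Subgroup Δ := N₁.normalCore
  have hCf : C.FiniteIndex := Subgroup.finiteIndex_normalCore N₁
  have hC : C ≤ N₁ := Subgroup.normalCore_le N₁
  have hRfin : Finite (Δ ⧸ C) := Subgroup.finite_quotient_of_finiteIndex
  let ϖ : Δ →* Δ ⧸ C := QuotientGroup.mk' C
  have hϖ : Function.Surjective ϖ := QuotientGroup.mk'_surjective C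
  have hker : ϖ.ker = C := QuotientGroup.ker_mk' C
  let f : Δ ⧸ C →* Δ ⧸ N₀ := QuotientGroup.map C N₀ (MonoidHom.id Δ) (hC.trans hN₁)
  have hf : f.comp ϖ = π := by
    ext y
    rfl
  obtain ⟨ϖ', hϖ'⟩ : ∃ ϖ' : Λ →* Δ ⧸ C, ϖ' = Φ.toFun _ ϖ := ⟨_, rfl⟩
  have hf' : f.comp ϖ' = π' := by
    rw [hϖ', ← Φ.nat, hf]
    exact hπ'
  have hϖs : Function.Surjective ϖ' := by
    rw [hϖ', ← MonoidHom.range_eq_top, Φ.range_eq, MonoidHom.range_eq_top]
    exact hϖ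
  obtain ⟨l', hl'⟩ := hϖs (ϖ x)
  have hl'' : π' l' = π' l := by
    rw [← hf', MonoidHom.comp_apply, hl', ← MonoidHom.comp_apply, hf, hxl, ← hf']
  -- the surface groups
  have hDf : D.FiniteIndex := Subgroup.finiteIndex_of_le hN₁D
  obtain ⟨g₁, hg₁, ⟨e₁⟩⟩ := ToVT.surf L D hDtf
  obtain ⟨g₂, hg₂, ⟨e₂⟩⟩ := ToVT.surf L N₁ (hN₀.mono hN₁)
  obtain ⟨eM⟩ := tr_surf Φ hfg hrf ϖ hϖ D hDf (by rw [hker]; exact hC.trans hN₁D) e₁
  obtain ⟨eB⟩ := tr_surf Φ hfg hrf ϖ hϖ N₁ hN₁f (by rw [hker]; exact hC) e₂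
  rw [← hϖ'] at eM eB
  have hlM : l' ∈ (D.map ϖ).comap ϖ' := by
    show ϖ' l' ∈ D.map ϖ
    rw [hl']
    exact ⟨x, hxD, rfl⟩
  have hBN : (N₁.map ϖ).comap ϖ' ≤ π'.ker := by
    rintro y ⟨z, hz, hzy⟩
    rw [MonoidHom.mem_ker, ← hf', MonoidHom.comp_apply, ← hzy]
    show f (ϖ z) = 1
    have : f (ϖ z) = π z := DFunLike.congr_fun hf z
    rw [this]
    exact (QuotientGroup.eq_one_iff z).2 (hN₁ hz)
  have hBM : (N₁.map ϖ).comap ϖ' ≤ (D.map ϖ).comap ϖ' := Subgroup.comap_mono (Subgroup.map_mono hN₁D)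
  have hBf : ((N₁.map ϖ).comap ϖ').FiniteIndex := by
    refine ⟨?_⟩
    rw [Subgroup.index_comap_of_surjective _ hϖs]
    exact Subgroup.FiniteIndex.index_ne_zero
  have hlN : ∀ (m : Λ), ∀ y ∈ π'.ker, m * y * m⁻¹ ∈ π'.ker := fun m y hy =>
    Subgroup.Normal.conj_mem inferInstance y hy m
  have hlB : ∀ y ∈ (N₁.map ϖ).comap ϖ', l' * y * l'⁻¹ ∈ (N₁.map ϖ).comap ϖ' := by
    rintro y ⟨z, hz, hzy⟩
    refine ⟨x * z * x⁻¹, hxN₁ z hz, ?_⟩
    rw [map_mul, map_mul, map_inv, hzy, ← hl', map_mul, map_mul, map_inv]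
  have h1 : IsDeg (pl e l' (hlN l')) 1 :=
    deg_of_sub l' hlM hBN hBM hBf (hlN l') hlB hg (by omega) e eB eM
  -- the two elements differ by an element of the surface group
  have hn : l'⁻¹ * l ∈ π'.ker := by
    rw [MonoidHom.mem_ker, map_mul, map_inv, hl'', inv_mul_cancel]
  have h2 : ((e.trans (MulAut.conjNormal l)).trans e.symm).toMonoidHom =
      (pl e l' (hlN l')).comp (MulAut.conj (e.symm ⟨l'⁻¹ * l, hn⟩)).toMonoidHom := by
    ext1 y
    apply e.injective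
    apply Subtype.ext
    rw [MonoidHom.comp_apply, pl_spec]
    show ((e (e.symm (MulAut.conjNormal l (e y))) : π'.ker) : Λ) =
      l' * (e (e.symm ⟨l'⁻¹ * l, hn⟩ * y * (e.symm ⟨l'⁻¹ * l, hn⟩)⁻¹) : π'.ker) * l'⁻¹
    rw [MulEquiv.apply_symm_apply, MulAut.conjNormal_apply, map_mul, map_mul, map_inv,
      MulEquiv.apply_symm_apply]
    show l * (e y : Λ) * l⁻¹ = l' * ((l'⁻¹ * l) * (e y : Λ) * (l'⁻¹ * l)⁻¹) * l'⁻¹
    group
  rw [h2]
  have h3 := h1.comp (isDeg_conj (e.symm ⟨l'⁻¹ * l, hn⟩))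
  rwa [one_mul] at h3

end Pool.Agent.ToT
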