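import Pool.Agent.Lib.MP_305fdd_al.To.VT.Surf
import Pool.Agent.Lib.MP_305fdd_al.NatBij

/-!
# MP_305fdd_al, cocompact Fuchsian groups, block T: torsion free overgroups

`exists_over`: let `N` be a torsion free normal subgroup of finite index and `x` an element of infinite
order.  Then there are subgroups `N₁ ≤ N` and `N₁ ≤ D ∋ x` of finite index such that `x` normalises
`N₁` and `D` is torsion free.
-/

set_option autoImplicit false

namespace Pool.Agent.ToT

open Pool.Agent.Su Pool.Agent.Lib.MP_305fdd_al Pool.Agent.MP_305fdd_al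

/-- torsion free -/
def TF {G : Type} [Group G] (H : Subgroup G) : Prop :=
  ∀ x ∈ H, ∀ n : ℕ, 0 < n → x ^ n = 1 → x = 1

theorem TF.mono {G : Type} [Group G] {H K : Subgroup G} (h : TF K) (hle : H ≤ K) : TF H :=
  fun x hx => h x (hle hx)

/-- a homomorphism of a surface group to a commutative group is a product of powers of homomorphisms
to the integers -/
theorem surf_comm {g : ℕ} {A : Type} [CommGroup A] (χ : SurfaceGroup g →* A) (x : SurfaceGroup g)
    (hx : ∀ u : SurfaceGroup g →* Multiplicative ℤ, u x = 1) : χ x = 1 := by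
  classical
  have hrel : ∀ a b : Fin g → Multiplicative ℤ,
      (List.ofFn fun i : Fin g => a i * b i * (a i)⁻¹ * (b i)⁻¹).prod = 1 := by
    intro a b
    have : (fun i : Fin g => a i * b i * (a i)⁻¹ * (b i)⁻¹) = fun _ => 1 := by
      funext i
      rw [mul_comm (a i), mul_inv_cancel_right, mul_inv_cancel]
    rw [this, List.ofFn_const, List.prod_replicate, one_pow]
  let ua : Fin g → (SurfaceGroup g →* Multiplicative ℤ) := fun j =>
    surfLift (Pi.mulSingle j (Multiplicative.ofAdd 1)) 1 (hrel _ _)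
  let ub : Fin g → (SurfaceGroup g →* Multiplicative ℤ) := fun j =>
    surfLift 1 (Pi.mulSingle j (Multiplicative.ofAdd 1)) (hrel _ _)
  have hua : ∀ j i, ua j (sa g i) = Pi.mulSingle (M := fun _ => Multiplicative ℤ) j
    (Multiplicative.ofAdd 1) i := fun j i => surfLift_sa _ _ _ i
  have hua' : ∀ j i, ua j (sb g i) = 1 := fun j i => surfLift_sb _ _ _ i
  have hub : ∀ j i, ub j (sb g i) = Pi.mulSingle (M := fun _ => Multiplicative ℤ) j
    (Multiplicative.ofAdd 1) i := fun j i => surfLift_sb _ _ _ i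
  have hub' : ∀ j i, ub j (sa g i) = 1 := fun j i => surfLift_sa _ _ _ i
  have key : χ = (∏ j, (zpowersHom A (χ (sa g j))).comp (ua j)) *
      ∏ j, (zpowersHom A (χ (sb g j))).comp (ub j) := by
    refine surf_ext (fun i => ?_) fun i => ?_
    · rw [MonoidHom.mul_apply, MonoidHom.finsetProd_apply, MonoidHom.finsetProd_apply,
        Finset.prod_eq_single i, Finset.prod_eq_one]
      · rw [MonoidHom.comp_apply, hua, Pi.mulSingle_eq_same, mul_one]
        simp
      · intro j _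
        rw [MonoidHom.comp_apply, hub', map_one]
      · intro j _ hj
        rw [MonoidHom.comp_apply, hua, Pi.mulSingle_eq_of_ne hj.symm, map_one]
      · intro h
        exact absurd (Finset.mem_univ _) h
    · rw [MonoidHom.mul_apply, MonoidHom.finsetProd_apply, MonoidHom.finsetProd_apply,
        Finset.prod_eq_one, Finset.prod_eq_single i]
      · rw [MonoidHom.comp_apply, hub, Pi.mulSingle_eq_same, one_mul]
        simp
      · intro j _ hj
        rw [MonoidHom.comp_apply, hub, Pi.mulSingle_eq_of_ne hj.symm, map_one]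
      · intro h
        exact absurd (Finset.mem_univ _) h
      · intro j _
        rw [MonoidHom.comp_apply, hua', map_one]
  rw [key, MonoidHom.mul_apply, MonoidHom.finsetProd_apply, MonoidHom.finsetProd_apply,
    Finset.prod_eq_one, Finset.prod_eq_one, mul_one]
  · intro j _
    rw [MonoidHom.comp_apply, hx, map_one]
  · intro j _
    rw [MonoidHom.comp_apply, hx, map_one]

/-- a power of a prime-order relation -/
theorem dvd_aux {d i p : ℤ} (hp : Prime p) (h : d * d ∣ i * p) : d ∣ i := by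
  by_cases hd : p ∣ d
  · obtain ⟨e, rfl⟩ := hd
    obtain ⟨c, hc⟩ := h
    refine ⟨e * c, ?_⟩
    have h1 : i * p = (p * e * (e * c)) * p := by rw [hc]; ring
    exact mul_right_cancel₀ hp.ne_zero h1
  · have h1 : IsCoprime (d * d) p := by
      have h2 : IsCoprime d p := ((Prime.coprime_iff_not_dvd hp).2 hd).symm
      exact h2.mul_left h2
    exact (dvd_mul_right d d).trans (h1.dvd_of_dvd_mul_right h)

/-- an element of a subgroup of finite index of a lattice, which is nontrivial in a cyclic quotient of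
the subgroup, has a nonzero image under a homomorphism to the integers -/
theorem exists_int {g : ℕ} {K A : Type} [Group K] [CommGroup A] (e : K ≃* SurfaceGroup g)
    (χ : K →* A) (n : K) (hn : χ n ≠ 1) : ∃ u : K →* Multiplicative ℤ, u n ≠ 1 := by
  by_contra hcon
  push Not at hcon
  apply hn
  have h1 := surf_comm (χ.comp e.symm.toMonoidHom) (e n) fun u => hcon (u.comp e.toMonoidHom)
  rw [MonoidHom.comp_apply] at h1
  simpa using h1

open scoped IsMulCommutative in
theorem exists_over {Δ : Type} [Group Δ] (L : ToST.Lat Δ) (N : Subgroup Δ) [hNn : N.Normal]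
    [hNf : N.FiniteIndex] (hN : TF N) (x : Δ) (hx : ∀ n : ℕ, 0 < n → x ^ n ≠ 1) :
    ∃ N₁ D : Subgroup Δ, N₁ ≤ N ∧ N₁.FiniteIndex ∧ N₁ ≤ D ∧ x ∈ D ∧
      (∀ y ∈ N₁, x * y * x⁻¹ ∈ N₁) ∧ TF D := by
  classical
  have hfg : Group.FG Δ := ToVT.fg L
  have hrf : Group.ResiduallyFinite Δ := ToVT.rf L
  have hfin : Finite (Δ ⧸ N) := Subgroup.finite_quotient_of_finiteIndex
  obtain ⟨d, hd⟩ : ∃ d, d = orderOf (x : Δ ⧸ N) := ⟨_, rfl⟩
  have hd0 : 0 < d := by rw [hd]; exact orderOf_pos _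
  have hdvd : ∀ j : ℤ, x ^ j ∈ N ↔ (d : ℤ) ∣ j := by
    intro j
    rw [hd, orderOf_dvd_iff_zpow_eq_one, ← QuotientGroup.eq_one_iff]
    rfl
  obtain ⟨n, hn⟩ : ∃ n, n = x ^ d := ⟨_, rfl⟩
  have hnN : n ∈ N := by
    rw [hn, ← zpow_natCast, hdvd]
  have hn1 : n ≠ 1 := by rw [hn]; exact hx d hd0
  -- a finite quotient
  obtain ⟨H, hH⟩ := Group.exists_finiteIndexNormalSubgroup_notMem n hn1
  let P : Subgroup Δ := H.toSubgroup ⊓ N
  have hPn : P.Normal := inferInstance
  have hPf : P.FiniteIndex := inferInstance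
  have hPN : P ≤ N := inf_le_right
  have hPfin : Finite (Δ ⧸ P) := Subgroup.finite_quotient_of_finiteIndex
  let π : Δ →* Δ ⧸ P := QuotientGroup.mk' P
  have hπ : ∀ y, π y = 1 ↔ y ∈ P := fun y => QuotientGroup.eq_one_iff y
  have hπn : π n ≠ 1 := fun h => hH ((hπ n).1 h).1
  let K : Subgroup Δ := (Subgroup.zpowers (π n)).comap π
  have hPK : P ≤ K := fun y hy => by
    show π y ∈ Subgroup.zpowers (π n)
    rw [(hπ y).2 hy]
    exact one_mem _
  have hKf : K.FiniteIndex := Subgroup.finiteIndex_of_le hPK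
  have hKN : K ≤ N := by
    rintro y ⟨k, hk⟩
    have hk' : π n ^ k = π y := hk
    have h1 : (n ^ k)⁻¹ * y ∈ P := by
      rw [← hπ, map_mul, map_inv, map_zpow, hk', inv_mul_cancel]
    have h2 := N.mul_mem (N.zpow_mem hnN k) (hPN h1)
    rwa [mul_inv_cancel_left] at h2
  have hKtf : TF K := hN.mono hKN
  obtain ⟨h₁, -, ⟨e⟩⟩ := ToVT.surf L K hKtf
  have hnK : n ∈ K := Subgroup.mem_zpowers (π n)
  have hKfg : Group.FG K := inferInstance
  let χ : K →* Subgroup.zpowers (π n) := (π.comp K.subtype).codRestrict _ fun y => y.2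
  obtain ⟨u, hu⟩ := exists_int e χ ⟨n, hnK⟩ fun h => hπn (congrArg Subtype.val h)
  obtain ⟨m, hm⟩ : ∃ m : ℤ, m = Multiplicative.toAdd (u ⟨n, hnK⟩) := ⟨_, rfl⟩
  have hm0 : m ≠ 0 := fun h => hu (by rw [h] at hm; exact hm.symm)
  obtain ⟨r, hr⟩ : ∃ r, r = m.natAbs * d := ⟨_, rfl⟩
  have hr0 : 0 < r := by rw [hr]; exact Nat.mul_pos (Int.natAbs_pos.2 hm0) hd0
  have : NeZero r := ⟨hr0.ne'⟩
  have hVfin : Finite (Multiplicative (ZMod r)) := inferInstanceAs (Finite (ZMod r))
  have hhom : Finite (K →* Multiplicative (ZMod r)) := finite_hom _ _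
  let M : Subgroup K := (evQ K (Multiplicative (ZMod r))).ker
  have hMf : M.FiniteIndex := Subgroup.finiteIndex_ker _
  let N₁ : Subgroup Δ := M.map K.subtype
  have hN₁ : ∀ y, y ∈ N₁ ↔ ∃ hy : y ∈ K, ∀ φ : K →* Multiplicative (ZMod r), φ ⟨y, hy⟩ = 1 := by
    intro y
    constructor
    · rintro ⟨z, hz, rfl⟩
      exact ⟨z.2, mem_ker_evQ.1 hz⟩
    · rintro ⟨hy, h⟩
      exact ⟨⟨y, hy⟩, mem_ker_evQ.2 h, rfl⟩
  have hN₁K : N₁ ≤ K := fun y hy => ((hN₁ y).1 hy).1
  have hN₁f : N₁.FiniteIndex := by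
    refine ⟨?_⟩
    show (M.map K.subtype).index ≠ 0
    rw [Subgroup.index_map, Subgroup.ker_subtype, sup_bot_eq, Subgroup.range_subtype]
    exact mul_ne_zero hMf.index_ne_zero hKf.index_ne_zero
  -- conjugation by elements which commute with `n`
  have hcK : ∀ g, g * n = n * g → ∀ y ∈ K, g * y * g⁻¹ ∈ K := by
    rintro g hg y ⟨k, hk⟩
    have hk' : π n ^ k = π y := hk
    refine ⟨k, ?_⟩
    show π n ^ k = π (g * y * g⁻¹)
    have h1 : g * n ^ k * g⁻¹ = n ^ k := by
      have h2 : Commute g n := hg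
      rw [(h2.zpow_right k).eq, mul_inv_cancel_right]
    rw [map_mul, map_mul, ← hk', ← map_zpow, ← map_mul, ← map_mul, h1]
  have hcN : ∀ g, g * n = n * g → ∀ y ∈ N₁, g * y * g⁻¹ ∈ N₁ := by
    intro g hg y hy
    obtain ⟨hyK, hφ⟩ := (hN₁ y).1 hy
    refine (hN₁ _).2 ⟨hcK g hg y hyK, fun φ => ?_⟩
    let c : K →* K :=
      { toFun := fun z => ⟨g * z * g⁻¹, hcK g hg z z.2⟩
        map_one' := by
          apply Subtype.ext
          simp
        map_mul' := fun a b => by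
          apply Subtype.ext
          simp }
    exact hφ (φ.comp c)
  have hxn : ∀ j : ℤ, x ^ j * n = n * x ^ j := by
    intro j
    rw [hn, ← zpow_natCast, ← zpow_add, ← zpow_add, add_comm]
  -- powers of `n`
  have hpow : ∀ j : ℤ, n ^ j ∈ N₁ → (d : ℤ) ∣ j := by
    intro j hj
    obtain ⟨hjK, hφ⟩ := (hN₁ _).1 hj
    let v : Multiplicative ℤ →* Multiplicative (ZMod r) :=
      (Int.castAddHom (ZMod r)).toMultiplicative
    have h1 := hφ (v.comp u)
    have h2 : (⟨n ^ j, hjK⟩ : K) = ⟨n, hnK⟩ ^ j := rfl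
    rw [h2, map_zpow, MonoidHom.comp_apply, ← map_zpow] at h1
    have h3 : ((j * m : ℤ) : ZMod r) = 0 := by
      have h4 : v (u ⟨n, hnK⟩ ^ j) = Multiplicative.ofAdd (((j * m : ℤ) : ZMod r)) := by
        show Multiplicative.ofAdd (Int.castAddHom (ZMod r) (Multiplicative.toAdd (u ⟨n, hnK⟩ ^ j))) = _
        rw [toAdd_zpow, ← hm]
        simp
      rw [h4] at h1
      exact h1
    rw [ZMod.intCast_zmod_eq_zero_iff_dvd, hr] at h3
    push_cast at h3
    have h5 : |m| * (d : ℤ) ∣ j * |m| := by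
      refine h3.trans ?_
      rcases abs_choice m with h | h <;> rw [h]
      rw [mul_neg, dvd_neg]
    rw [mul_comm] at h5
    exact Int.dvd_of_mul_dvd_mul_right (abs_ne_zero.2 hm0) h5
  -- the overgroup
  let D : Subgroup Δ :=
    { carrier := {z | ∃ i : ℤ, ∃ y ∈ N₁, z = x ^ i * y}
      one_mem' := ⟨0, 1, one_mem _, by simp⟩
      mul_mem' := by
        rintro _ _ ⟨i, y, hy, rfl⟩ ⟨j, z, hz, rfl⟩
        refine ⟨i + j, (x ^ (-j) * y * (x ^ (-j))⁻¹) * z,
          N₁.mul_mem (hcN _ (hxn _) y hy) hz, ?_⟩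
        rw [zpow_add, zpow_neg, inv_inv]
        group
      inv_mem' := by
        rintro _ ⟨i, y, hy, rfl⟩
        refine ⟨-i, x ^ i * y⁻¹ * (x ^ i)⁻¹, hcN _ (hxn _) _ (N₁.inv_mem hy), ?_⟩
        rw [zpow_neg]
        group }
  have hDpow : ∀ (i : ℤ), ∀ y ∈ N₁, ∀ k : ℕ, ∃ y' ∈ N₁, (x ^ i * y) ^ k = x ^ (i * k) * y' := by
    intro i y hy k
    induction k with
    | zero => exact ⟨1, one_mem _, by simp⟩
    | succ k ih =>
      obtain ⟨y', hy', h⟩ := ih
      refine ⟨(x ^ (-i) * y' * (x ^ (-i))⁻¹) * y, N₁.mul_mem (hcN _ (hxn _) _ hy') hy, ?_⟩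
      rw [pow_succ, h]
      push_cast
      rw [mul_add, mul_one, zpow_add, zpow_neg, inv_inv]
      group
  refine ⟨N₁, D, hN₁K.trans hKN, hN₁f, fun y hy => ⟨0, y, hy, by simp⟩, ⟨1, 1, one_mem _, by simp⟩,
    fun y hy => hcN x (by simpa using hxn 1) y hy, ?_⟩
  -- torsion free
  have hprime : ∀ z ∈ D, ∀ p : ℕ, p.Prime → z ^ p = 1 → z = 1 := by
    rintro _ ⟨i, y, hy, rfl⟩ p hp hz
    obtain ⟨y', hy', h⟩ := hDpow i y hy p
    rw [h] at hz
    have h1 : x ^ (i * p) ∈ N₁ := by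
      rw [eq_inv_of_mul_eq_one_left hz]
      exact N₁.inv_mem hy'
    obtain ⟨j, hj⟩ := (hdvd _).1 (hKN (hN₁K h1))
    have h2 : n ^ j = x ^ (i * (p : ℤ)) := by
      rw [hj, zpow_mul, zpow_natCast, hn]
    have h3 := hpow j (by rw [h2]; exact h1)
    have h4 : (d : ℤ) * d ∣ i * p := by
      rw [hj]
      exact mul_dvd_mul_left _ h3
    have h5 := dvd_aux (Nat.prime_iff_prime_int.1 hp) h4
    have h6 : x ^ i * y ∈ N := N.mul_mem ((hdvd i).2 h5) (hKN (hN₁K hy))
    exact hN _ h6 p hp.pos (by rw [h, hz])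
  intro z hz n' hn' hzn
  by_contra hz1
  have hfo : IsOfFinOrder z := isOfFinOrder_iff_pow_eq_one.2 ⟨n', hn', hzn⟩
  have ho : orderOf z ≠ 1 := fun h => hz1 (orderOf_eq_one_iff.1 h)
  obtain ⟨p, hp, hpo⟩ := Nat.exists_prime_and_dvd ho
  obtain ⟨k, hk⟩ := hpo
  have h1 : (z ^ k) ^ p = 1 := by
    rw [← pow_mul, mul_comm, ← hk, pow_orderOf_eq_one]
  have h2 := hprime _ (D.pow_mem hz k) p hp h1
  have h3 := orderOf_dvd_of_pow_eq_one h2
  have hk0 : 0 < k := by
    rcases Nat.eq_zero_or_pos k with h | h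
    · rw [h, mul_zero] at hk
      exact absurd hk hfo.orderOf_pos.ne'
    · exact h
  have h4 := Nat.le_of_dvd hk0 h3
  rw [hk] at h4
  have h5 := hp.two_le
  nlinarith

end Pool.Agent.ToT
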